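import Pool.Agent.Helper60.FF.DefsB

set_option autoImplicit false

/-!
# EVH: evaluation of rational functions over `A` at a point outside `A` (helper46)
-/

namespace Pool.Agent.Helper60.FF

open Polynomial

theorem evh_inj (p : ℕ) [Fact p.Prime] (A : Subfield ℂ_[p]) (hA : IsAlgClosed A) (τ : ℂ_[p])
    (hτ : τ ∉ A) : Function.Injective (eval₂RingHom A.subtype τ) := by
  rw [injective_iff_map_eq_zero]
  intro P hP
  by_contra hP0
  have h1 : P.eval₂ A.subtype τ = 0 := hP
  have hs := (IsAlgClosed.splits P).eq_prod_roots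
  rw [hs, eval₂_mul, eval₂_C, eval₂_multiset_prod] at h1
  rcases mul_eq_zero.mp h1 with h | h
  · rw [map_eq_zero, leadingCoeff_eq_zero] at h
    exact hP0 h
  · rw [Multiset.prod_eq_zero_iff, Multiset.map_map, Multiset.mem_map] at h
    obtain ⟨a, -, ha⟩ := h
    simp only [Function.comp_apply, eval₂_sub, eval₂_X, eval₂_C, sub_eq_zero] at ha
    apply hτ
    rw [ha]
    exact a.2

theorem st_EVH : ST_EVH := by
  intro p _ A hA τ hτ
  have hinj := evh_inj p A hA τ hτ
  let e : RatFunc A →+* ℂ_[p] := IsFractionRing.lift hinj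
  have he : ∀ P : Polynomial A, e (algebraMap (Polynomial A) (RatFunc A) P) =
      P.eval₂ A.subtype τ := fun P => IsFractionRing.lift_algebraMap hinj P
  refine ⟨e, ?_, ?_, ?_, he, ?_⟩
  · intro c
    unfold ev RatFunc.eval
    conv_lhs => rw [← RatFunc.num_div_denom c]
    rw [map_div₀, he, he]
  · rw [← RatFunc.algebraMap_X, he, eval₂_X]
  · intro a
    rw [← RatFunc.algebraMap_C, he, eval₂_C]
    rfl
  · intro E hE c hc
    obtain ⟨P, Q, hQ0, hPE, hQE, hPQ⟩ := hc
    have hmem : ∀ R : Polynomial A, (∀ j, ((R.coeff j : A) : ℂ_[p]) ∈ E) →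
        R.eval₂ A.subtype τ ∈ E := by
      intro R hR
      rw [eval₂_eq_sum, Polynomial.sum_def]
      exact sum_mem fun i _ => mul_mem (hR i) (pow_mem hE i)
    have hQ : Q.eval₂ A.subtype τ ≠ 0 := by
      intro h
      apply hQ0
      exact (injective_iff_map_eq_zero _).mp hinj Q h
    have h1 : e c * Q.eval₂ A.subtype τ = P.eval₂ A.subtype τ := by
      rw [← he, ← he, ← map_mul, hPQ]
    have h2 : e c = P.eval₂ A.subtype τ / Q.eval₂ A.subtype τ := by
      rw [eq_div_iff hQ, h1]
    rw [h2]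
    exact div_mem (hmem P hPE) (hmem Q hQE)

end Pool.Agent.Helper60.FF
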