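import Pool.Agent.Helper60.FF.StmtsC

/-!
# FND: finitely many discs

For almost all residues `γ` the zeros of the values of `χ τ` over `γ` are in finitely many good discs.
-/

set_option autoImplicit false

namespace Pool.Agent.Helper60.FF

open Polynomial

/-- a function which factors through a function with finite range has finite range -/
theorem fnd_factor {α β δ : Type} (s : Set α) (f : α → β) (g : α → δ) (F : Set β) (hF : F.Finite)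
    (hs : ∀ x ∈ s, f x ∈ F) (h : ∀ x ∈ s, ∀ y ∈ s, f x = f y → g x = g y) : (g '' s).Finite := by
  classical
  by_cases hne : s.Nonempty
  · obtain ⟨x₀, hx₀⟩ := hne
    have : ∀ t : β, ∃ d : δ, ∀ x ∈ s, f x = t → g x = d := by
      intro t
      by_cases ht : ∃ y ∈ s, f y = t
      · obtain ⟨y, hy, hyt⟩ := ht
        exact ⟨g y, fun x hx hxt => h x hx y hy (hxt.trans hyt.symm)⟩
      · exact ⟨g x₀, fun x hx hxt => (ht ⟨x, hx, hxt⟩).elim⟩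
    choose d hd using this
    refine (hF.image d).subset ?_
    rintro _ ⟨x, hx, rfl⟩
    exact ⟨f x, hs x hx, (hd (f x) x hx rfl).symm⟩
  · rw [Set.not_nonempty_iff_eq_empty] at hne
    rw [hne, Set.image_empty]
    exact Set.finite_empty

/-- ultrametric inequality -/
theorem fnd_lt {p : ℕ} [Fact p.Prime] {x y z : ℂ_[p]} {R : ℝ} (h : ‖x - y‖ < R) (h' : ‖y - z‖ < R) :
    ‖x - z‖ < R := by
  have h1 : x - z = (x - y) + (y - z) := by ring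
  rw [h1]
  exact (PadicComplex.isNonarchimedean p _ _).trans_lt (max_lt h h')

theorem fnd_eq {p : ℕ} [Fact p.Prime] {x y z : ℂ_[p]} (h : ‖x - y‖ < ‖x - z‖) :
    ‖y - z‖ = ‖x - z‖ := by
  have h1 : y - z = (x - z) - (x - y) := by ring
  have h2 : ‖-(x - y)‖ < ‖x - z‖ := by rwa [norm_neg]
  rw [h1, sub_eq_add_neg, IsUltrametricDist.norm_add_eq_max_of_norm_ne_norm h2.ne', max_eq_left h2.le]

/-- the distance to the nearest point is locally constant -/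
theorem fnd_near {p : ℕ} [Fact p.Prime] {n : ℕ} (K : KD p n) (ρ : ℂ_[p] → K.A)
    (hρ : ∀ x, ρ x ∈ Sg K ∧ ∀ b ∈ Sg K, ‖x - (ρ x : ℂ_[p])‖ ≤ ‖x - (b : ℂ_[p])‖) (x y : ℂ_[p])
    (h : ‖x - y‖ < ‖x - (ρ x : ℂ_[p])‖) : ‖y - (ρ y : ℂ_[p])‖ = ‖x - (ρ x : ℂ_[p])‖ := by
  have key : ∀ b ∈ Sg K, ‖y - (b : ℂ_[p])‖ = ‖x - (b : ℂ_[p])‖ := fun b hb =>
    fnd_eq (h.trans_le ((hρ x).2 b hb))
  refine le_antisymm ?_ ?_
  · rw [← key _ (hρ x).1]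
    exact (hρ y).2 _ (hρ x).1
  · rw [key _ (hρ y).1]
    exact (hρ x).2 _ (hρ y).1

theorem fnd_exists_near {p : ℕ} [Fact p.Prime] {n : ℕ} (K : KD p n) (hfin : (Sg K).Finite) :
    ∃ ρ : ℂ_[p] → K.A, ∀ x, ρ x ∈ Sg K ∧ ∀ b ∈ Sg K, ‖x - (ρ x : ℂ_[p])‖ ≤ ‖x - (b : ℂ_[p])‖ := by
  have h : ∀ x : ℂ_[p], ∃ a ∈ Sg K, ∀ b ∈ Sg K, ‖x - (a : ℂ_[p])‖ ≤ ‖x - (b : ℂ_[p])‖ := by
    intro x
    exact Set.exists_min_image (Sg K) (fun b => ‖x - (b : ℂ_[p])‖) hfin ⟨0, Or.inl rfl⟩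
  choose ρ hρ using h
  exact ⟨ρ, hρ⟩

theorem fnd_finite_T {F : Type} [Field F] (T : Polynomial (Polynomial F)) (hT : T ≠ 0) :
    {γ : F | T.eval (C γ) = 0}.Finite := by
  have h := Polynomial.finite_setOf_isRoot hT
  exact (h.preimage (f := fun γ : F => C γ) (C_injective.injOn)).subset (fun γ hγ => hγ)

theorem fnd_eval_sp {F : Type} [Field F] (w γ : F) (T : Polynomial (Polynomial F)) :
    (sp w T).eval γ = (T.eval (C γ)).eval w := by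
  unfold sp
  have h : T.eval (C γ) = ∑ i ∈ Finset.range (T.natDegree + 1), T.coeff i * (C γ) ^ i :=
    eval_eq_sum_range _
  rw [eval_map, eval₂_eq_sum_range, h, eval_finset_sum]
  refine Finset.sum_congr rfl fun i _ => ?_
  rw [eval_mul, eval_pow, eval_C, coe_evalRingHom]

/-- the points of the same residue are in the same open disc -/
theorem fnd_res {p : ℕ} [Fact p.Prime] {b d v v' : ℂ_[p]} (hd : d ≠ 0) (hv : ‖v - b‖ ≤ ‖d‖)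
    (hv' : ‖v' - b‖ ≤ ‖d‖) (h : res ((v - b) / d) = res ((v' - b) / d)) : ‖v - v'‖ < ‖d‖ := by
  have hd' : 0 < ‖d‖ := norm_pos_iff.2 hd
  have h1 : ‖(v - b) / d‖ ≤ 1 := by
    rw [norm_div]
    exact (div_le_one hd').2 hv
  have h2 : ‖(v' - b) / d‖ ≤ 1 := by
    rw [norm_div]
    exact (div_le_one hd').2 hv'
  rw [res_eq_iff h1 h2] at h
  have h3 : (v - b) / d - (v' - b) / d = (v - v') / d := by
    rw [← sub_div]
    congr 1
    ring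
  rw [h3, norm_div] at h
  exact (div_lt_one hd').1 h

theorem st_FND (hEDG : ST_EDG) (hVTX : ST_VTX) (hEDV : ST_EDV) (hGDX : ST_GDX) (hL5 : ST_L5)
    (hDNS : ST_DNS) (hSGF : ST_SGF) : ST_FND := by
  classical
  intro p n hp hP K
  have hfin : (Sg K).Finite := (hSGF p n K).1
  obtain ⟨ρ, hρ⟩ := fnd_exists_near K hfin
  obtain ⟨Φ, hΦf, hΦ0, hΦ1, hΦ2⟩ := hEDG p n hP K
  have hV : ∀ b b' : K.A, ∃ (T : Polynomial (Polynomial (RF p))) (W : Set (RF p)), T ≠ 0 ∧ W.Finite ∧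
      (b' ≠ b → ∀ (v : K.A) (φ : Polynomial (RF p)), ‖(v : ℂ_[p]) - b‖ ≤ ‖(b' : ℂ_[p]) - b‖ →
        GD K v ‖(b' : ℂ_[p]) - b‖ φ →
        res (((v : ℂ_[p]) - (b : ℂ_[p])) / ((b' : ℂ_[p]) - (b : ℂ_[p]))) ∉ W →
        ∃ s : RF p, s ≠ 0 ∧
          sp (res (((v : ℂ_[p]) - (b : ℂ_[p])) / ((b' : ℂ_[p]) - (b : ℂ_[p])))) T = C s * φ) := by
    intro b b'
    by_cases h : b' = b
    · exact ⟨1, ∅, one_ne_zero, Set.finite_empty, fun h' => (h' h).elim⟩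
    · obtain ⟨T, W, h1, h2, h3⟩ := hVTX p n hP K b b' h
      exact ⟨T, W, h1, h2, fun _ => h3⟩
  choose T W hT0 hWf hTW using hV
  -- the constants of the maximal good discs
  have hG : ∀ v : K.A, ∃ φ : Polynomial (RF p), v ∉ Sg K →
      GD K v ‖(v : ℂ_[p]) - (ρ (v : ℂ_[p]) : ℂ_[p])‖ φ := by
    intro v
    by_cases h : v ∈ Sg K
    · exact ⟨0, fun h' => (h' h).elim⟩
    · have h0 : 0 < ‖(v : ℂ_[p]) - (ρ (v : ℂ_[p]) : ℂ_[p])‖ := by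
        rw [norm_pos_iff, sub_ne_zero]
        intro h1
        exact h (by rw [Subtype.ext h1]; exact (hρ _).1)
      obtain ⟨φ, hφ⟩ := hGDX p n hP K v _ h0 (fun b hb => by
        rw [norm_sub_rev (b : ℂ_[p])]
        exact (hρ _).2 b hb)
      exact ⟨φ, fun _ => hφ⟩
  choose φ hφ using hG
  have hpos : ∀ v : K.A, v ∉ Sg K → 0 < ‖(v : ℂ_[p]) - (ρ (v : ℂ_[p]) : ℂ_[p])‖ := fun v hv => (hφ v hv).1
  refine ⟨(⋃ ψ ∈ Φ, {γ | ψ.eval γ = 0}) ∪ ⋃ b ∈ Sg K, ⋃ b' ∈ Sg K, {γ | (T b b').eval (C γ) = 0},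
    ?_, ?_⟩
  · refine Set.Finite.union ?_ ?_
    · exact hΦf.biUnion fun ψ hψ => Polynomial.finite_setOf_isRoot (hΦ0 ψ hψ)
    · exact hfin.biUnion fun b _ => hfin.biUnion fun b' _ => fnd_finite_T _ (hT0 b b')
  intro γ hγ
  have hγ1 : ∀ ψ ∈ Φ, ψ.eval γ ≠ 0 := fun ψ hψ h0 => hγ (Or.inl (Set.mem_biUnion hψ h0))
  have hγ2 : ∀ b ∈ Sg K, ∀ b' ∈ Sg K, (T b b').eval (C γ) ≠ 0 := fun b hb b' hb' h0 =>
    hγ (Or.inr (Set.mem_biUnion hb (Set.mem_biUnion hb' h0)))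
  -- bad points
  let Bad : Set K.A := {v | v ∉ Sg K ∧ (φ v).eval γ = 0}
  have hA : ∀ v : K.A, ∃ b' : K.A, v ∈ Bad → b' ∈ Sg K ∧ b' ≠ ρ (v : ℂ_[p]) ∧
      ‖(b' : ℂ_[p]) - (ρ (v : ℂ_[p]) : ℂ_[p])‖ = ‖(v : ℂ_[p]) - (ρ (v : ℂ_[p]) : ℂ_[p])‖ := by
    intro v
    by_cases hv : v ∈ Bad
    · by_contra hcon
      push Not at hcon
      have hnot := fun b' => (hcon b').2
      have hϖ : (v - ρ (v : ℂ_[p]) : K.A) ≠ 0 := by
        intro h0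
        have h1 := hpos v hv.1
        rw [norm_pos_iff, sub_ne_zero] at h1
        exact h1 (congrArg Subtype.val (sub_eq_zero.1 h0))
      have hnorm : ‖((v - ρ (v : ℂ_[p]) : K.A) : ℂ_[p])‖ = ‖(v : ℂ_[p]) - (ρ (v : ℂ_[p]) : ℂ_[p])‖ := rfl
      obtain ⟨φ', hφ', hct⟩ := hΦ1 (ρ (v : ℂ_[p])) (hρ _).1 (v - ρ (v : ℂ_[p])) hϖ
        (fun b' hb' hne h => hnot b' hb' hne (h.trans hnorm))
      obtain ⟨s, hs, hsφ⟩ := hEDV p n hP K v (ρ (v : ℂ_[p])) (v - ρ (v : ℂ_[p])) (φ v) φ' hϖ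
        (by rw [hnorm]; exact hφ v hv.1) (by rw [hnorm]) hct
      apply hγ1 φ' hφ'
      rw [hsφ, eval_mul, hv.2, mul_zero]
    · exact ⟨0, fun h => (hv h).elim⟩
  choose β hβ using hA
  -- the class of a point
  let cl : K.A → Set K.A := fun v => {u | u ∈ Bad ∧ ‖(v : ℂ_[p]) - u‖ <
    ‖(v : ℂ_[p]) - (ρ (v : ℂ_[p]) : ℂ_[p])‖}
  have hself : ∀ v ∈ Bad, v ∈ cl v := by
    intro v hv
    refine ⟨hv, ?_⟩
    rw [sub_self, norm_zero]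
    exact hpos v hv.1
  let rep : K.A → K.A := fun v => Classical.epsilon (fun u => u ∈ cl v)
  have hrep : ∀ v ∈ Bad, rep v ∈ cl v := fun v hv => Classical.epsilon_spec ⟨v, hself v hv⟩
  have hcl : ∀ v v' : K.A, ‖(v : ℂ_[p]) - v'‖ < ‖(v : ℂ_[p]) - (ρ (v : ℂ_[p]) : ℂ_[p])‖ →
      cl v = cl v' := by
    intro v v' h
    have hr := fnd_near K ρ hρ _ _ h
    ext u
    constructor
    · rintro ⟨h1, h2⟩
      refine ⟨h1, ?_⟩
      rw [hr]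
      rw [norm_sub_rev] at h
      exact fnd_lt h h2
    · rintro ⟨h1, h2⟩
      refine ⟨h1, ?_⟩
      rw [hr] at h2
      exact fnd_lt h h2
  have hreq : ∀ v v' : K.A, cl v = cl v' → rep v = rep v' := by
    intro v v' h
    show Classical.epsilon (fun u => u ∈ cl v) = Classical.epsilon (fun u => u ∈ cl v')
    rw [h]
  have hrr : ∀ v ∈ Bad, ‖(rep v : ℂ_[p]) - (ρ (rep v : ℂ_[p]) : ℂ_[p])‖ =
      ‖(v : ℂ_[p]) - (ρ (v : ℂ_[p]) : ℂ_[p])‖ := fun v hv => fnd_near K ρ hρ _ _ (hrep v hv).2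
  -- finiteness
  have hfinrep : (rep '' Bad).Finite := by
    refine fnd_factor Bad (fun v => (ρ (v : ℂ_[p]), β v,
      res (((v : ℂ_[p]) - (ρ (v : ℂ_[p]) : ℂ_[p])) / ((β v : ℂ_[p]) - (ρ (v : ℂ_[p]) : ℂ_[p])))) ) rep
      (⋃ b ∈ Sg K, ⋃ b' ∈ Sg K, (fun w => (b, b', w)) '' (W b b' ∪ {w | ((T b b').eval (C γ)).eval w = 0}))
      ?_ ?_ ?_
    · refine hfin.biUnion fun b hb => hfin.biUnion fun b' hb' => Set.Finite.image _ ?_
      exact (hWf b b').union (Polynomial.finite_setOf_isRoot (hγ2 b hb b' hb'))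
    · intro v hv
      obtain ⟨h1, h2, h3⟩ := hβ v hv
      refine Set.mem_biUnion (hρ (v : ℂ_[p])).1 (Set.mem_biUnion h1 ⟨_, ?_, rfl⟩)
      by_cases hw : res (((v : ℂ_[p]) - (ρ (v : ℂ_[p]) : ℂ_[p])) /
          ((β v : ℂ_[p]) - (ρ (v : ℂ_[p]) : ℂ_[p]))) ∈ W (ρ (v : ℂ_[p])) (β v)
      · exact Or.inl hw
      · right
        obtain ⟨s, hs, hsφ⟩ := hTW (ρ (v : ℂ_[p])) (β v) h2 v (φ v) (by rw [h3])
          (by rw [h3]; exact hφ v hv.1) hw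
        show ((T (ρ (v : ℂ_[p])) (β v)).eval (C γ)).eval _ = 0
        rw [← fnd_eval_sp, hsφ, eval_mul, hv.2, mul_zero]
    · intro v hv v' hv' heq
      simp only [Prod.mk.injEq] at heq
      obtain ⟨e1, e2, e3⟩ := heq
      apply hreq
      apply hcl
      obtain ⟨h1, h2, h3⟩ := hβ v hv
      obtain ⟨h1', h2', h3'⟩ := hβ v' hv'
      rw [← h3]
      refine fnd_res (b := (ρ (v : ℂ_[p]) : ℂ_[p])) ?_ ?_ ?_ ?_
      · intro h0
        exact h2 (Subtype.ext (sub_eq_zero.1 h0))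
      · rw [h3]
      · rw [e1, e2, h3']
      · rw [e3, e1, e2]
  have hcov : ∀ v ∈ Bad, ∃ d ∈ (fun u : K.A => (u, u - ρ (u : ℂ_[p]))) '' (rep '' Bad),
      ‖(v : ℂ_[p]) - d.1‖ < ‖(v : ℂ_[p]) - (ρ (v : ℂ_[p]) : ℂ_[p])‖ ∧
        ‖(d.2 : ℂ_[p])‖ = ‖(v : ℂ_[p]) - (ρ (v : ℂ_[p]) : ℂ_[p])‖ := by
    intro v hv
    exact ⟨_, ⟨rep v, ⟨v, hv, rfl⟩, rfl⟩, (hrep v hv).2, hrr v hv⟩
  refine ⟨(fun u : K.A => (u, u - ρ (u : ℂ_[p]))) '' (rep '' Bad), hfinrep.image _, ?_, ?_, ?_, ?_⟩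
  · rintro _ ⟨_, ⟨v, hv, rfl⟩, rfl⟩
    have h1 : rep v ∈ Bad := (hrep v hv).1
    refine ⟨?_, φ (rep v), hφ (rep v) h1.1⟩
    intro h0
    have h2 := hpos (rep v) h1.1
    rw [norm_pos_iff, sub_ne_zero] at h2
    exact h2 (congrArg Subtype.val (sub_eq_zero.1 h0))
  · rintro _ ⟨_, ⟨v, hv, rfl⟩, rfl⟩ _ ⟨_, ⟨v', hv', rfl⟩, rfl⟩ hne
    by_contra hlt
    rw [not_le] at hlt
    apply hne
    have h1 : cl (rep v) = cl (rep v') := hcl _ _ hlt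
    have h2 : cl v = cl (rep v) := hcl _ _ (hrep v hv).2
    have h3 : cl v' = cl (rep v') := hcl _ _ (hrep v' hv').2
    have h4 : rep v = rep v' := hreq _ _ (h2.trans (h1.trans h3.symm))
    rw [h4]
  · intro v
    by_cases hv : v ∈ Sg K
    · right
      obtain ⟨ψ, hψ, r₀, hr₀, hct⟩ := hΦ2 v hv
      exact ⟨ψ, r₀, hr₀, hγ1 ψ hψ, hct⟩
    · by_cases h0 : (φ v).eval γ = 0
      · left
        obtain ⟨d, hd, h1, h2⟩ := hcov v ⟨hv, h0⟩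
        exact ⟨d, hd, by rw [h2]; exact h1⟩
      · right
        refine ⟨φ v, _, hpos v hv, h0, fun ϖ hϖ hlt => (hφ v hv).2.2.2 v ϖ ?_ hϖ hlt⟩
        rw [sub_self, norm_zero]
        exact hpos v hv
  · intro τ hτ hτA
    have hτ0 : 0 < ‖τ - (ρ τ : ℂ_[p])‖ := by
      rw [norm_pos_iff, sub_ne_zero]
      intro h
      exact hτA (by rw [h]; exact (ρ τ).2)
    obtain ⟨a, ha, hlt⟩ := (hDNS p K.A K.acl).1 τ _ hτ0
    obtain ⟨v, rfl⟩ : ∃ v : K.A, (v : ℂ_[p]) = a := ⟨⟨a, ha⟩, rfl⟩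
    have hr : ‖(v : ℂ_[p]) - (ρ (v : ℂ_[p]) : ℂ_[p])‖ = ‖τ - (ρ τ : ℂ_[p])‖ := fnd_near K ρ hρ _ _ hlt
    have hv : v ∉ Sg K := by
      intro hv
      have h1 := (hρ (v : ℂ_[p])).2 v hv
      rw [sub_self, norm_zero, hr] at h1
      exact absurd h1 (not_le.2 hτ0)
    have hϖ : (v - ρ (v : ℂ_[p]) : K.A) ≠ 0 := by
      intro h0
      have h1 := hpos v hv
      rw [norm_pos_iff, sub_ne_zero] at h1
      exact h1 (congrArg Subtype.val (sub_eq_zero.1 h0))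
    have hred : Red (K.χ τ) (φ v) := (hL5 p n hP K v (v - ρ (v : ℂ_[p])) (φ v) hϖ (hφ v hv)).1 τ hτ hτA
      (hlt.trans_eq hr.symm)
    by_cases h0 : (φ v).eval γ = 0
    · left
      obtain ⟨d, hd, h1, h2⟩ := hcov v ⟨hv, h0⟩
      refine ⟨d, hd, ?_⟩
      rw [h2]
      exact fnd_lt (hlt.trans_eq hr.symm) h1
    · exact Or.inr ⟨φ v, hred, h0⟩

end Pool.Agent.Helper60.FF
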