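import Pool.Agent.Helper60.FF.DefsB

set_option autoImplicit false

/-!
# NPW: dominant terms on an annulus without zeros (helper46)
-/

namespace Pool.Agent.Helper60.FF

open Polynomial

/-- the term of index `k` dominates at radius `r` -/
def npw_dom {p : ℕ} [Fact p.Prime] (P : Polynomial ℂ_[p]) (k : ℕ) (r : ℝ) : Prop :=
  P.coeff k ≠ 0 ∧ ∀ j, j ≠ k → ‖P.coeff j‖ * r ^ j < ‖P.coeff k‖ * r ^ k

theorem npw_sub_left {p : ℕ} [Fact p.Prime] {x y : ℂ_[p]} (h : ‖y‖ < ‖x‖) : ‖x - y‖ = ‖x‖ := by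
  have h1 : ‖-y‖ < ‖x‖ := by rwa [norm_neg]
  rw [sub_eq_add_neg, IsUltrametricDist.norm_add_eq_max_of_norm_ne_norm h1.ne', max_eq_left h1.le]

theorem npw_sub_right {p : ℕ} [Fact p.Prime] {x y : ℂ_[p]} (h : ‖x‖ < ‖y‖) : ‖x - y‖ = ‖y‖ := by
  rw [norm_sub_rev]
  exact npw_sub_left h

theorem npw_sub_le {p : ℕ} [Fact p.Prime] (x y : ℂ_[p]) : ‖x - y‖ ≤ max ‖x‖ ‖y‖ := by
  rw [sub_eq_add_neg]
  refine (PadicComplex.isNonarchimedean p x (-y)).trans ?_
  rw [norm_neg]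

/-- coefficients of `(X - a) P` -/
theorem npw_coeff {p : ℕ} [Fact p.Prime] (P : Polynomial ℂ_[p]) (a : ℂ_[p]) (j : ℕ) :
    ((X - C a) * P).coeff (j + 1) = P.coeff j - a * P.coeff (j + 1) ∧
      ((X - C a) * P).coeff 0 = - (a * P.coeff 0) := by
  constructor
  · rw [sub_mul, coeff_sub, coeff_X_mul, coeff_C_mul]
  · rw [sub_mul, coeff_sub, coeff_X_mul_zero, coeff_C_mul, zero_sub]

theorem npw_small {p : ℕ} [Fact p.Prime] {P : Polynomial ℂ_[p]} {k : ℕ} {r : ℝ} (hr : 0 < r)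
    (h : npw_dom P k r) {a : ℂ_[p]} (ha : ‖a‖ < r) : npw_dom ((X - C a) * P) (k + 1) r := by
  obtain ⟨h0, h1⟩ := h
  have hpos : 0 < ‖P.coeff k‖ * r ^ k := by
    have := norm_pos_iff.mpr h0
    positivity
  have hle : ∀ j, ‖P.coeff j‖ * r ^ j ≤ ‖P.coeff k‖ * r ^ k := by
    intro j
    rcases eq_or_ne j k with rfl | hj
    · exact le_rfl
    · exact (h1 j hj).le
  have hak : ‖a * P.coeff (k + 1)‖ < ‖P.coeff k‖ := by
    rw [norm_mul]
    have h2 := h1 (k + 1) (by omega)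
    have h3 : ‖P.coeff (k + 1)‖ * r < ‖P.coeff k‖ := by
      have hrk : 0 < r ^ k := by positivity
      have : ‖P.coeff (k + 1)‖ * r * r ^ k < ‖P.coeff k‖ * r ^ k := by
        rw [pow_succ] at h2
        linarith
      exact lt_of_mul_lt_mul_right this hrk.le
    have h4 : ‖a‖ * ‖P.coeff (k + 1)‖ ≤ r * ‖P.coeff (k + 1)‖ := by gcongr
    linarith
  have hck : ‖((X - C a) * P).coeff (k + 1)‖ = ‖P.coeff k‖ := by
    rw [(npw_coeff P a k).1]
    exact npw_sub_left hak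
  refine ⟨?_, ?_⟩
  · rw [← norm_pos_iff, hck]
    exact norm_pos_iff.mpr h0
  · intro j hj
    rw [hck]
    have htop : ‖P.coeff k‖ * r ^ (k + 1) = r * (‖P.coeff k‖ * r ^ k) := by ring
    have hA : ∀ i, ‖a * P.coeff i‖ * r ^ i < r * (‖P.coeff k‖ * r ^ k) := by
      intro i
      rw [norm_mul]
      calc ‖a‖ * ‖P.coeff i‖ * r ^ i = ‖a‖ * (‖P.coeff i‖ * r ^ i) := by ring
        _ ≤ ‖a‖ * (‖P.coeff k‖ * r ^ k) := by
            apply mul_le_mul_of_nonneg_left (hle i) (norm_nonneg _)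
        _ < r * (‖P.coeff k‖ * r ^ k) := by
            apply mul_lt_mul_of_pos_right ha hpos
    rcases Nat.eq_zero_or_pos j with rfl | hjpos
    · rw [(npw_coeff P a 0).2, norm_neg, htop]
      exact hA 0
    · obtain ⟨i, rfl⟩ : ∃ i, j = i + 1 := ⟨j - 1, by omega⟩
      rw [(npw_coeff P a i).1, htop]
      have hB : ‖P.coeff i‖ * r ^ (i + 1) < r * (‖P.coeff k‖ * r ^ k) := by
        have := h1 i (by omega)
        calc ‖P.coeff i‖ * r ^ (i + 1) = r * (‖P.coeff i‖ * r ^ i) := by ring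
          _ < r * (‖P.coeff k‖ * r ^ k) := by
              apply mul_lt_mul_of_pos_left this hr
      have hri : 0 < r ^ (i + 1) := by positivity
      rcases le_total ‖P.coeff i‖ ‖a * P.coeff (i + 1)‖ with h5 | h5
      · have h6 := npw_sub_le (P.coeff i) (a * P.coeff (i + 1))
        rw [max_eq_right h5] at h6
        exact lt_of_le_of_lt (mul_le_mul_of_nonneg_right h6 hri.le) (hA (i + 1))
      · have h6 := npw_sub_le (P.coeff i) (a * P.coeff (i + 1))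
        rw [max_eq_left h5] at h6
        exact lt_of_le_of_lt (mul_le_mul_of_nonneg_right h6 hri.le) hB

theorem npw_large {p : ℕ} [Fact p.Prime] {P : Polynomial ℂ_[p]} {k : ℕ} {r : ℝ} (hr : 0 < r)
    (h : npw_dom P k r) {a : ℂ_[p]} (ha : r < ‖a‖) : npw_dom ((X - C a) * P) k r := by
  obtain ⟨h0, h1⟩ := h
  have hpos : 0 < ‖P.coeff k‖ * r ^ k := by
    have := norm_pos_iff.mpr h0
    positivity
  have hck0 : 0 < ‖P.coeff k‖ := norm_pos_iff.mpr h0
  have hle : ∀ j, ‖P.coeff j‖ * r ^ j ≤ ‖P.coeff k‖ * r ^ k := by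
    intro j
    rcases eq_or_ne j k with rfl | hj
    · exact le_rfl
    · exact (h1 j hj).le
  have hck : ‖((X - C a) * P).coeff k‖ = ‖a‖ * ‖P.coeff k‖ := by
    rcases Nat.eq_zero_or_pos k with rfl | hk
    · rw [(npw_coeff P a 0).2, norm_neg, norm_mul]
    · obtain ⟨i, rfl⟩ : ∃ i, k = i + 1 := ⟨k - 1, by omega⟩
      rw [(npw_coeff P a i).1]
      have h2 := h1 i (by omega)
      have h3 : ‖P.coeff i‖ < ‖a * P.coeff (i + 1)‖ := by
        have hri : 0 < r ^ i := by positivity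
        have h4 : ‖P.coeff i‖ < ‖P.coeff (i + 1)‖ * r := by
          have : ‖P.coeff i‖ * r ^ i < ‖P.coeff (i + 1)‖ * r * r ^ i := by
            rw [pow_succ] at h2
            linarith
          exact lt_of_mul_lt_mul_right this hri.le
        rw [norm_mul]
        calc ‖P.coeff i‖ < ‖P.coeff (i + 1)‖ * r := h4
          _ ≤ ‖P.coeff (i + 1)‖ * ‖a‖ := by gcongr
          _ = ‖a‖ * ‖P.coeff (i + 1)‖ := mul_comm _ _
      rw [npw_sub_right h3, norm_mul]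
  have ha0 : 0 < ‖a‖ := hr.trans ha
  refine ⟨?_, ?_⟩
  · rw [← norm_pos_iff, hck]
    positivity
  · intro j hj
    rw [hck]
    have htop : ‖a‖ * ‖P.coeff k‖ * r ^ k = ‖a‖ * (‖P.coeff k‖ * r ^ k) := by ring
    have hA : ∀ i, i ≠ k → ‖a * P.coeff i‖ * r ^ i < ‖a‖ * (‖P.coeff k‖ * r ^ k) := by
      intro i hi
      rw [norm_mul]
      calc ‖a‖ * ‖P.coeff i‖ * r ^ i = ‖a‖ * (‖P.coeff i‖ * r ^ i) := by ring
        _ < ‖a‖ * (‖P.coeff k‖ * r ^ k) := by
            apply mul_lt_mul_of_pos_left (h1 i hi) ha0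
    rcases Nat.eq_zero_or_pos j with rfl | hjpos
    · rw [(npw_coeff P a 0).2, norm_neg, htop]
      exact hA 0 hj
    · obtain ⟨i, rfl⟩ : ∃ i, j = i + 1 := ⟨j - 1, by omega⟩
      rw [(npw_coeff P a i).1, htop]
      have hB : ‖P.coeff i‖ * r ^ (i + 1) < ‖a‖ * (‖P.coeff k‖ * r ^ k) := by
        calc ‖P.coeff i‖ * r ^ (i + 1) = r * (‖P.coeff i‖ * r ^ i) := by ring
          _ ≤ r * (‖P.coeff k‖ * r ^ k) := by
              apply mul_le_mul_of_nonneg_left (hle i) hr.le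
          _ < ‖a‖ * (‖P.coeff k‖ * r ^ k) := by
              apply mul_lt_mul_of_pos_right ha hpos
      have hri : 0 < r ^ (i + 1) := by positivity
      rcases le_total ‖P.coeff i‖ ‖a * P.coeff (i + 1)‖ with h5 | h5
      · have h6 := npw_sub_le (P.coeff i) (a * P.coeff (i + 1))
        rw [max_eq_right h5] at h6
        exact lt_of_le_of_lt (mul_le_mul_of_nonneg_right h6 hri.le) (hA (i + 1) hj)
      · have h6 := npw_sub_le (P.coeff i) (a * P.coeff (i + 1))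
        rw [max_eq_left h5] at h6
        exact lt_of_le_of_lt (mul_le_mul_of_nonneg_right h6 hri.le) hB

theorem npw_prod {p : ℕ} [Fact p.Prime] {r₁ r₂ : ℝ} (h1 : 0 < r₁) (c : ℂ_[p]) (hc : c ≠ 0)
    (s : Multiset ℂ_[p]) : (∀ a ∈ s, ‖a‖ ≤ r₁ ∨ r₂ ≤ ‖a‖) →
    ∃ k, ∀ r, r₁ < r → r < r₂ → npw_dom (C c * (s.map (fun a => X - C a)).prod) k r := by
  induction s using Multiset.induction_on with
  | empty =>
    intro _
    refine ⟨0, fun r hr1 hr2 => ⟨?_, ?_⟩⟩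
    · rw [Multiset.map_zero, Multiset.prod_zero, mul_one, coeff_C_zero]
      exact hc
    · intro j hj
      rw [Multiset.map_zero, Multiset.prod_zero, mul_one, coeff_C_zero, coeff_C_ne_zero hj,
        norm_zero, zero_mul, pow_zero, mul_one]
      exact norm_pos_iff.mpr hc
  | cons a s ih =>
    intro hs
    obtain ⟨k, hk⟩ := ih (fun b hb => hs b (Multiset.mem_cons_of_mem hb))
    have e : C c * (((a ::ₘ s).map (fun a => X - C a)).prod) =
        (X - C a) * (C c * (s.map (fun a => X - C a)).prod) := by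
      rw [Multiset.map_cons, Multiset.prod_cons]
      ring
    rw [e]
    rcases hs a (Multiset.mem_cons_self a s) with ha | ha
    · exact ⟨k + 1, fun r hr1 hr2 => npw_small (h1.trans hr1) (hk r hr1 hr2) (ha.trans_lt hr1)⟩
    · exact ⟨k, fun r hr1 hr2 => npw_large (h1.trans hr1) (hk r hr1 hr2) (hr2.trans_le ha)⟩

/-- non-strict domination at the ends -/
theorem npw_closed {r₁ r₂ u v : ℝ} {i k : ℕ} (h12 : r₁ < r₂)
    (h : ∀ r, r₁ < r → r < r₂ → u * r ^ i ≤ v * r ^ k) (r : ℝ) (hr : r ∈ Set.Icc r₁ r₂) :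
    u * r ^ i ≤ v * r ^ k := by
  have hcl : IsClosed {r : ℝ | u * r ^ i ≤ v * r ^ k} := isClosed_le (by fun_prop) (by fun_prop)
  have hsub : Set.Ioo r₁ r₂ ⊆ {r : ℝ | u * r ^ i ≤ v * r ^ k} := fun x hx => h x hx.1 hx.2
  have := closure_minimal hsub hcl
  rw [closure_Ioo h12.ne] at this
  exact this hr

theorem npw_strict_low {r₁ r u v : ℝ} {j k : ℕ} (h1 : 0 < r₁) (hr : r₁ < r) (hjk : k < j)
    (h : u * r ^ j < v * r ^ k) (hu : 0 ≤ u) (hv : 0 < v) : u * r₁ ^ j < v * r₁ ^ k := by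
  have h0 : 0 < r := h1.trans hr
  have hq : 0 < r₁ / r := by positivity
  have hq1 : r₁ / r ≤ 1 := (div_le_one h0).mpr hr.le
  have e : ∀ n : ℕ, r₁ ^ n = r ^ n * (r₁ / r) ^ n := by
    intro n
    rw [← mul_pow, mul_div_cancel₀ _ h0.ne']
  rw [e j, e k]
  have h2 : (r₁ / r) ^ j ≤ (r₁ / r) ^ k := pow_le_pow_of_le_one hq.le hq1 hjk.le
  calc u * (r ^ j * (r₁ / r) ^ j) = (u * r ^ j) * (r₁ / r) ^ j := by ring
    _ ≤ (u * r ^ j) * (r₁ / r) ^ k := by gcongr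
    _ < (v * r ^ k) * (r₁ / r) ^ k := by
        apply mul_lt_mul_of_pos_right h (by positivity)
    _ = v * (r ^ k * (r₁ / r) ^ k) := by ring

theorem npw_strict_high {r₂ r u v : ℝ} {j k : ℕ} (h0 : 0 < r) (hr : r < r₂) (hjk : j < k)
    (h : u * r ^ j < v * r ^ k) (hu : 0 ≤ u) (hv : 0 < v) : u * r₂ ^ j < v * r₂ ^ k := by
  have hq1 : 1 ≤ r₂ / r := (one_le_div h0).mpr hr.le
  have e : ∀ n : ℕ, r₂ ^ n = r ^ n * (r₂ / r) ^ n := by
    intro n
    rw [← mul_pow, mul_div_cancel₀ _ h0.ne']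
  rw [e j, e k]
  have h2 : (r₂ / r) ^ j ≤ (r₂ / r) ^ k := pow_le_pow_right₀ hq1 hjk.le
  calc u * (r ^ j * (r₂ / r) ^ j) = (u * r ^ j) * (r₂ / r) ^ j := by ring
    _ ≤ (u * r ^ j) * (r₂ / r) ^ k := by gcongr
    _ < (v * r ^ k) * (r₂ / r) ^ k := by
        apply mul_lt_mul_of_pos_right h (by positivity)
    _ = v * (r ^ k * (r₂ / r) ^ k) := by ring

theorem st_NPW : ST_NPW := by
  intro p _ P r₁ r₂ hP h1 h12 hroots
  have hlc : P.leadingCoeff ≠ 0 := leadingCoeff_ne_zero.mpr hP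
  obtain ⟨k, hk⟩ := npw_prod (r₂ := r₂) h1 P.leadingCoeff hlc P.roots (fun a ha => by
    apply hroots
    exact (mem_roots hP).mp ha)
  rw [← (IsAlgClosed.splits P).eq_prod_roots] at hk
  have hm1 : r₁ < (r₁ + r₂) / 2 := by linarith
  have hm2 : (r₁ + r₂) / 2 < r₂ := by linarith
  have hmid := hk _ hm1 hm2
  have hle : ∀ j r, r₁ < r → r < r₂ → ‖P.coeff j‖ * r ^ j ≤ ‖P.coeff k‖ * r ^ k := by
    intro j r hr1 hr2
    rcases eq_or_ne j k with rfl | hj
    · exact le_rfl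
    · exact ((hk r hr1 hr2).2 j hj).le
  have hck : 0 < ‖P.coeff k‖ := norm_pos_iff.mpr hmid.1
  refine ⟨k, hmid.1, ?_, ?_, ?_, ?_⟩
  · intro j
    exact npw_closed h12 (hle j) r₁ ⟨le_rfl, h12.le⟩
  · intro j hj
    exact npw_strict_low h1 hm1 hj (hmid.2 j (by omega)) (norm_nonneg _) hck
  · intro j
    exact npw_closed h12 (hle j) r₂ ⟨h12.le, le_rfl⟩
  · intro j hj
    exact npw_strict_high (h1.trans hm1) hm2 hj (hmid.2 j (by omega)) (norm_nonneg _) hck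

end Pool.Agent.Helper60.FF
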