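import Pool.Agent.Helper24.FF.Stmts

set_option autoImplicit false

namespace Pool.Agent.Helper24.FF

open Pool.Agent.Helper64.CT Pool.Agent.Helper64.DT Pool.Agent.Helper64.FL
open Pool.Agent.Helper64.HG (Ovl Model Circ IC HellyCircle ChordModel)

/-- crossing -/
def sb0_cr (a b c d : ℤ) : Prop := ¬ (bt a b c ↔ bt a b d)

/-- comparison -/
def sb0_l (x y : ℤ) : Bool := decide (x < y)

theorem sb0_lc {x y z w : ℤ} (h : x < y ↔ z < w) : sb0_l x y = sb0_l z w := by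
  unfold sb0_l
  exact decide_eq_decide.2 h

theorem sb0_ln {x y : ℤ} (h : x ≠ y) : sb0_l y x = !(sb0_l x y) := by
  unfold sb0_l
  by_cases h1 : x < y
  · have h2 : ¬ y < x := by omega
    simp [h1, h2]
  · have h2 : y < x := by omega
    simp [h1, h2]

theorem sb0_t {x y : ℤ} (h : x < y) : sb0_l x y = true := decide_eq_true h

theorem sb0_f {x y : ℤ} (h : ¬ x < y) : sb0_l x y = false := decide_eq_false h

theorem sb0_bt {a b c : ℤ} (h1 : a ≠ c) (h2 : b ≠ c) :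
    bt a b c ↔ xor (sb0_l a c) (sb0_l b c) = true := by
  unfold bt
  by_cases k1 : a < c <;> by_cases k2 : b < c
  · rw [sb0_t k1, sb0_t k2]
    exact ⟨fun h => by omega, fun h => by cases h⟩
  · rw [sb0_t k1, sb0_f k2]
    exact ⟨fun h => rfl, fun h => by left; omega⟩
  · rw [sb0_f k1, sb0_t k2]
    exact ⟨fun h => rfl, fun h => by right; omega⟩
  · rw [sb0_f k1, sb0_f k2]
    exact ⟨fun h => by omega, fun h => by cases h⟩

theorem sb0_iff {a b c d : ℤ} (h1 : a ≠ c) (h2 : a ≠ d) (h3 : b ≠ c) (h4 : b ≠ d) :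
    sb0_cr a b c d ↔
      xor (xor (sb0_l a c) (sb0_l b c)) (xor (sb0_l a d) (sb0_l b d)) = true := by
  unfold sb0_cr
  rw [sb0_bt h1 h3, sb0_bt h2 h4]
  generalize xor (sb0_l a c) (sb0_l b c) = x
  generalize xor (sb0_l a d) (sb0_l b d) = y
  revert x y
  decide

theorem sb0_arc {p q r : ℤ} (h : p ≠ q) (h1 : r ≠ p) (h2 : r ≠ q) :
    arc p q r ↔ xor (xor (sb0_l p r) (sb0_l q r)) (sb0_l q p) = true := by
  unfold arc
  by_cases k0 : q < p <;> by_cases k1 : p < r <;> by_cases k2 : q < r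
  · rw [sb0_t k0, sb0_t k1, sb0_t k2]
    exact ⟨fun h => rfl, fun h => by right; omega⟩
  · omega
  · rw [sb0_t k0, sb0_f k1, sb0_t k2]
    exact ⟨fun h => by omega, fun h => by cases h⟩
  · rw [sb0_t k0, sb0_f k1, sb0_f k2]
    exact ⟨fun h => rfl, fun h => by right; omega⟩
  · rw [sb0_f k0, sb0_t k1, sb0_t k2]
    exact ⟨fun h => by omega, fun h => by cases h⟩
  · rw [sb0_f k0, sb0_t k1, sb0_f k2]
    exact ⟨fun h => rfl, fun h => by left; omega⟩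
  · omega
  · rw [sb0_f k0, sb0_f k1, sb0_f k2]
    exact ⟨fun h => by omega, fun h => by cases h⟩

theorem sb0_sym {a b c d : ℤ} (h1 : a ≠ c) (h2 : a ≠ d) (h3 : b ≠ c) (h4 : b ≠ d) :
    sb0_cr a b c d ↔ sb0_cr c d a b := by
  rw [sb0_iff h1 h2 h3 h4, sb0_iff h1.symm h3.symm h2.symm h4.symm, sb0_ln h1, sb0_ln h2,
    sb0_ln h3, sb0_ln h4]
  generalize sb0_l a c = x1
  generalize sb0_l a d = x2
  generalize sb0_l b c = x3
  generalize sb0_l b d = x4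
  revert x1 x2 x3 x4
  decide

theorem sb0_sw1 {a b c d : ℤ} : sb0_cr a b c d ↔ sb0_cr b a c d := by
  unfold sb0_cr bt
  exact not_congr (iff_congr Or.comm Or.comm)

theorem sb0_sw2 {a b c d : ℤ} : sb0_cr a b c d ↔ sb0_cr a b d c := by
  unfold sb0_cr
  exact not_congr Iff.comm

theorem sb0_dbl {x y : ℤ} : sb0_l (2 * x) (2 * y) = sb0_l x y := sb0_lc (by omega)

theorem sb0_nr {p q p' : ℤ} (h1 : p ≠ q) (h3 : p' ≠ q) (h5 : p ≠ p') (ha : ¬ arc p q p') :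
    xor (xor (sb0_l p p') (sb0_l q p')) (sb0_l q p) = false := by
  rw [sb0_arc h1 h5.symm h3] at ha
  exact Bool.eq_false_iff.2 ha

theorem sb0_k1 {p p' q q' : ℤ} (h1 : p ≠ q) (h2 : p ≠ q') (h3 : p' ≠ q) (h4 : p' ≠ q')
    (h5 : p ≠ p') (h6 : q ≠ q') (hc : sb0_cr p p' q q') (ha : ¬ arc p q p')
    (hb : ¬ arc p q q') : ¬ sb0_cr (2 * p') (2 * q) (2 * q') (2 * p) := by
  have e1 := sb0_nr h1 h3 h5 ha
  have e2 := sb0_nr h1 h6.symm h2 hb
  rw [sb0_iff h1 h2 h3 h4] at hc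
  rw [sb0_iff (by omega) (by omega) (by omega) (by omega), sb0_dbl, sb0_dbl, sb0_dbl, sb0_dbl]
  rw [sb0_ln h1] at e1 e2 ⊢
  rw [sb0_ln h3] at e1
  rw [sb0_ln h5]
  revert hc e1 e2
  generalize sb0_l p q = x1
  generalize sb0_l p p' = x2
  generalize sb0_l p q' = x3
  generalize sb0_l p' q = x4
  generalize sb0_l q q' = x5
  generalize sb0_l p' q' = x6
  revert x1 x2 x3 x4 x5 x6
  decide

theorem sb0_k2 {p p' q : ℤ} (h1 : p ≠ q) (h3 : p' ≠ q) (h5 : p ≠ p') (e1 : p % 2 = 0)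
    (e2 : p' % 2 = 0) (e3 : q % 2 = 0) (ha : ¬ arc p q p') :
    sb0_cr (2 * p - 2) (2 * q + 2) (2 * p') (2 * q) := by
  have e := sb0_nr h1 h3 h5 ha
  rw [sb0_iff (by omega) (by omega) (by omega) (by omega)]
  have t1 : sb0_l (2 * p - 2) (2 * p') = sb0_l p p' := sb0_lc (by omega)
  have t2 : sb0_l (2 * q + 2) (2 * p') = sb0_l q p' := sb0_lc (by omega)
  have t3 : sb0_l (2 * p - 2) (2 * q) = sb0_l p q := sb0_lc (by omega)
  have t4 : sb0_l (2 * q + 2) (2 * q) = false := by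
    unfold sb0_l
    exact decide_eq_false (by omega)
  rw [t1, t2, t3, t4]
  rw [sb0_ln h1] at e
  revert e
  generalize sb0_l p q = x1
  generalize sb0_l p p' = x2
  generalize sb0_l q p' = x3
  revert x1 x2 x3
  decide

theorem sb0_k3 {p q q' : ℤ} (h1 : p ≠ q) (h2 : p ≠ q') (h6 : q ≠ q') (e1 : p % 2 = 0)
    (e2 : q' % 2 = 0) (e3 : q % 2 = 0) (ha : ¬ arc p q q') :
    sb0_cr (2 * p - 2) (2 * q + 2) (2 * q') (2 * p) := by
  have e := sb0_nr h1 h6.symm h2 ha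
  rw [sb0_iff (by omega) (by omega) (by omega) (by omega)]
  have t1 : sb0_l (2 * p - 2) (2 * q') = sb0_l p q' := sb0_lc (by omega)
  have t2 : sb0_l (2 * q + 2) (2 * q') = sb0_l q q' := sb0_lc (by omega)
  have t3 : sb0_l (2 * q + 2) (2 * p) = sb0_l q p := sb0_lc (by omega)
  have t4 : sb0_l (2 * p - 2) (2 * p) = true := by
    unfold sb0_l
    exact decide_eq_true (by omega)
  rw [t1, t2, t3, t4]
  revert e
  generalize sb0_l q p = x1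
  generalize sb0_l p q' = x2
  generalize sb0_l q q' = x3
  revert x1 x2 x3
  decide

theorem sb0_ht {p q r s : ℤ} (h1 : p ≠ q) (hr1 : r ≠ p) (hr2 : r ≠ q) (hs1 : s ≠ p)
    (hs2 : s ≠ q) (h : arc p q r ↔ arc p q s) :
    xor (sb0_l p r) (sb0_l q r) = xor (sb0_l p s) (sb0_l q s) := by
  rw [sb0_arc h1 hr1 hr2, sb0_arc h1 hs1 hs2] at h
  revert h
  generalize sb0_l q p = x1
  generalize sb0_l p r = x2
  generalize sb0_l q r = x3
  generalize sb0_l p s = x4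
  generalize sb0_l q s = x5
  revert x1 x2 x3 x4 x5
  decide

theorem sb0_k4 {p q r s : ℤ} (h1 : p ≠ q) (e1 : p % 2 = 0) (e2 : q % 2 = 0)
    (hr1 : r ≠ p) (hr2 : r ≠ q) (hs1 : s ≠ p) (hs2 : s ≠ q) (er : r % 2 = 0) (es : s % 2 = 0)
    (h : arc p q r ↔ arc p q s) :
    ¬ sb0_cr (2 * p - 2) (2 * q + 2) (2 * r) (2 * s) := by
  have e := sb0_ht h1 hr1 hr2 hs1 hs2 h
  rw [sb0_iff (by omega) (by omega) (by omega) (by omega)]
  have t1 : sb0_l (2 * p - 2) (2 * r) = sb0_l p r := sb0_lc (by omega)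
  have t2 : sb0_l (2 * q + 2) (2 * r) = sb0_l q r := sb0_lc (by omega)
  have t3 : sb0_l (2 * p - 2) (2 * s) = sb0_l p s := sb0_lc (by omega)
  have t4 : sb0_l (2 * q + 2) (2 * s) = sb0_l q s := sb0_lc (by omega)
  rw [t1, t2, t3, t4, e, Bool.xor_self]
  decide

theorem sb0_k5 {p q p' r s : ℤ} (h1 : p ≠ q)
    (hr1 : r ≠ p) (hr2 : r ≠ q) (hs1 : s ≠ p) (hs2 : s ≠ q) (hr3 : r ≠ p') (hs3 : s ≠ p')
    (h : arc p q r ↔ arc p q s) :
    sb0_cr (2 * r) (2 * s) (2 * p') (2 * q) ↔ sb0_cr r s p p' := by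
  have e := sb0_ht h1 hr1 hr2 hs1 hs2 h
  rw [sb0_iff (by omega) (by omega) (by omega) (by omega), sb0_dbl, sb0_dbl, sb0_dbl, sb0_dbl,
    sb0_iff hr1 hr3 hs1 hs3]
  rw [sb0_ln hr1, sb0_ln hr2, sb0_ln hs1, sb0_ln hs2] at e
  revert e
  generalize sb0_l r p = x1
  generalize sb0_l r q = x2
  generalize sb0_l s p = x3
  generalize sb0_l s q = x4
  generalize sb0_l r p' = x5
  generalize sb0_l s p' = x6
  revert x1 x2 x3 x4 x5 x6
  decide

theorem sb0_k6 {p q q' r s : ℤ} (h1 : p ≠ q)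
    (hr1 : r ≠ p) (hr2 : r ≠ q) (hs1 : s ≠ p) (hs2 : s ≠ q) (hr3 : r ≠ q') (hs3 : s ≠ q')
    (h : arc p q r ↔ arc p q s) :
    sb0_cr (2 * r) (2 * s) (2 * q') (2 * p) ↔ sb0_cr r s q q' := by
  have e := sb0_ht h1 hr1 hr2 hs1 hs2 h
  rw [sb0_iff (by omega) (by omega) (by omega) (by omega), sb0_dbl, sb0_dbl, sb0_dbl, sb0_dbl,
    sb0_iff hr2 hr3 hs2 hs3]
  rw [sb0_ln hr1, sb0_ln hr2, sb0_ln hs1, sb0_ln hs2] at e
  revert e
  generalize sb0_l r p = x1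
  generalize sb0_l r q = x2
  generalize sb0_l s p = x3
  generalize sb0_l s q = x4
  generalize sb0_l r q' = x5
  generalize sb0_l s q' = x6
  revert x1 x2 x3 x4 x5 x6
  decide

theorem sb0_k7 {r s r' s' : ℤ} (h1 : r ≠ r') (h2 : r ≠ s') (h3 : s ≠ r') (h4 : s ≠ s') :
    sb0_cr (2 * r) (2 * s) (2 * r') (2 * s') ↔ sb0_cr r s r' s' := by
  rw [sb0_iff (by omega) (by omega) (by omega) (by omega), sb0_dbl, sb0_dbl, sb0_dbl, sb0_dbl,
    sb0_iff h1 h2 h3 h4]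

theorem sb0_ne2 {x y : ℤ} (h : x ≠ y) : 2 * x ≠ 2 * y := by omega

theorem sb0_ne3 {p y : ℤ} (hp : p % 2 = 0) (hy : y % 2 = 0) : 2 * p - 2 ≠ 2 * y := by omega

theorem sb0_ne4 {p y : ℤ} (hp : p % 2 = 0) (hy : y % 2 = 0) : 2 * p + 2 ≠ 2 * y := by omega

theorem sb0_ev (x : ℤ) : (2 * x) % 2 = 0 := by omega

theorem sb0_ev1 (x : ℤ) : (2 * x - 2) % 2 = 0 := by omega

theorem sb0_ev2 (x : ℤ) : (2 * x + 2) % 2 = 0 := by omega

theorem sb0_xx {p q p' : ℤ} (h1 : p' % 2 = 0) (h2 : q % 2 = 0) (h3 : p' ≠ p) (h4 : p' ≠ q)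
    (h : ¬ arc p q p') : (2 * p - 2 : ℤ) ≠ 2 * q + 2 := by
  intro h0
  have : p = q + 2 := by omega
  subst this
  apply h
  right
  refine ⟨by omega, ?_⟩
  by_cases h5 : p' < q
  · exact Or.inl h5
  · right; omega

open Classical in
/-- new left ends -/
noncomputable def sb0_a {V : Type} (a : V → ℤ) (x u v : V) (p q' p' : ℤ) : V → ℤ := fun w =>
  if w = x then 2 * p - 2 else if w = u then 2 * p' else if w = v then 2 * q' else 2 * a w

open Classical in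
/-- new right ends -/
noncomputable def sb0_b {V : Type} (b : V → ℤ) (x u v : V) (p q : ℤ) : V → ℤ := fun w =>
  if w = x then 2 * q + 2 else if w = u then 2 * q else if w = v then 2 * p else 2 * b w

theorem st_SB0 : ST_SB0 := by
  intro V H G S a b u v x p p' q q' hM hS huv hu hv hap haq hy
  have hux : u ≠ x := fun h => hS.xS (h ▸ hS.uS)
  have hvx : v ≠ x := fun h => hS.xS (h ▸ hS.vS)
  have hsx : ∀ y ∈ S, y ≠ x := fun y hy h => hS.xS (h ▸ hy)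
  -- parities
  have au := hM.pa u hS.uS
  have bu := hM.pb u hS.uS
  have av := hM.pa v hS.vS
  have bv := hM.pb v hS.vS
  have nu := hM.ne u hS.uS
  have nv := hM.ne v hS.vS
  obtain ⟨d1, d2, d3, d4⟩ := hM.ds u hS.uS v hS.vS huv
  have hcr : sb0_cr p p' q q' := by
    have h := (hM.ad u hS.uS v hS.vS huv).1 hS.uv
    rcases hu with ⟨rfl, rfl⟩ | ⟨rfl, rfl⟩ <;> rcases hv with ⟨rfl, rfl⟩ | ⟨rfl, rfl⟩
    · exact h
    · exact sb0_sw2.1 h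
    · exact sb0_sw1.1 h
    · exact sb0_sw1.1 (sb0_sw2.1 h)
  obtain ⟨ep, ep', eq, eq', n1, n2, n3, n4, n5, n6⟩ : p % 2 = 0 ∧ p' % 2 = 0 ∧ q % 2 = 0 ∧
      q' % 2 = 0 ∧ p ≠ q ∧ p ≠ q' ∧ p' ≠ q ∧ p' ≠ q' ∧ p ≠ p' ∧ q ≠ q' := by
    rcases hu with ⟨rfl, rfl⟩ | ⟨rfl, rfl⟩ <;> rcases hv with ⟨rfl, rfl⟩ | ⟨rfl, rfl⟩
    · exact ⟨au, bu, av, bv, d1, d2, d3, d4, nu, nv⟩
    · exact ⟨au, bu, bv, av, d2, d1, d4, d3, nu, nv.symm⟩
    · exact ⟨bu, au, av, bv, d3, d4, d1, d2, nu.symm, nv⟩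
    · exact ⟨bu, au, bv, av, d4, d3, d2, d1, nu.symm, nv.symm⟩
  -- the others
  have oth : ∀ y ∈ S, y ≠ u → y ≠ v → a y ≠ p ∧ a y ≠ q ∧ a y ≠ p' ∧ a y ≠ q' ∧ b y ≠ p ∧
      b y ≠ q ∧ b y ≠ p' ∧ b y ≠ q' := by
    intro y hyS h1 h2
    obtain ⟨k1, k2, k3, k4⟩ := hM.ds y hyS u hS.uS h1
    obtain ⟨l1, l2, l3, l4⟩ := hM.ds y hyS v hS.vS h2
    rcases hu with ⟨rfl, rfl⟩ | ⟨rfl, rfl⟩ <;> rcases hv with ⟨rfl, rfl⟩ | ⟨rfl, rfl⟩
    · exact ⟨k1, l1, k2, l2, k3, l3, k4, l4⟩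
    · exact ⟨k1, l2, k2, l1, k3, l4, k4, l3⟩
    · exact ⟨k2, l1, k1, l2, k4, l3, k3, l4⟩
    · exact ⟨k2, l2, k1, l1, k4, l4, k3, l3⟩
  have nxx : (2 * p - 2 : ℤ) ≠ 2 * q + 2 := sb0_xx ep' eq n5.symm n3 hap
  -- values
  have ax : sb0_a a x u v p q' p' x = 2 * p - 2 := by simp [sb0_a]
  have bx : sb0_b b x u v p q x = 2 * q + 2 := by simp [sb0_b]
  have au' : sb0_a a x u v p q' p' u = 2 * p' := by simp [sb0_a, hux]
  have bu' : sb0_b b x u v p q u = 2 * q := by simp [sb0_b, hux]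
  have av' : sb0_a a x u v p q' p' v = 2 * q' := by simp [sb0_a, hvx, huv.symm]
  have bv' : sb0_b b x u v p q v = 2 * p := by simp [sb0_b, hvx, huv.symm]
  have ao : ∀ y ∈ S, y ≠ u → y ≠ v → sb0_a a x u v p q' p' y = 2 * a y := by
    intro y h0 h1 h2
    simp [sb0_a, h1, h2, hsx y h0]
  have bo : ∀ y ∈ S, y ≠ u → y ≠ v → sb0_b b x u v p q y = 2 * b y := by
    intro y h0 h1 h2
    simp [sb0_b, h1, h2, hsx y h0]
  -- four cases
  have four : ∀ y ∈ insert x S, y = x ∨ y = u ∨ y = v ∨ (y ∈ S ∧ y ≠ u ∧ y ≠ v) := by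
    intro y h
    rcases h with h | h
    · exact Or.inl h
    · by_cases h1 : y = u
      · exact Or.inr (Or.inl h1)
      · by_cases h2 : y = v
        · exact Or.inr (Or.inr (Or.inl h2))
        · exact Or.inr (Or.inr (Or.inr ⟨h, h1, h2⟩))
  -- distinctness
  have dist : ∀ w ∈ insert x S, ∀ z ∈ insert x S, w ≠ z →
      sb0_a a x u v p q' p' w ≠ sb0_a a x u v p q' p' z ∧
      sb0_a a x u v p q' p' w ≠ sb0_b b x u v p q z ∧
      sb0_b b x u v p q w ≠ sb0_a a x u v p q' p' z ∧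
      sb0_b b x u v p q w ≠ sb0_b b x u v p q z := by
    intro w hw z hz hwz
    rcases four w hw with rfl | rfl | rfl | ⟨w0, w1, w2⟩ <;>
      rcases four z hz with rfl | rfl | rfl | ⟨z0, z1, z2⟩
    · exact absurd rfl hwz
    · rw [ax, bx, au', bu']
      exact ⟨sb0_ne3 ep ep', sb0_ne3 ep eq, sb0_ne4 eq ep', sb0_ne4 eq eq⟩
    · rw [ax, bx, av', bv']
      exact ⟨sb0_ne3 ep eq', sb0_ne3 ep ep, sb0_ne4 eq eq', sb0_ne4 eq ep⟩
    · have k1 := hM.pa z z0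
      have k2 := hM.pb z z0
      rw [ax, bx, ao z z0 z1 z2, bo z z0 z1 z2]
      exact ⟨sb0_ne3 ep k1, sb0_ne3 ep k2, sb0_ne4 eq k1, sb0_ne4 eq k2⟩
    · rw [ax, bx, au', bu']
      exact ⟨(sb0_ne3 ep ep').symm, (sb0_ne4 eq ep').symm, (sb0_ne3 ep eq).symm,
        (sb0_ne4 eq eq).symm⟩
    · exact absurd rfl hwz
    · rw [au', bu', av', bv']
      exact ⟨sb0_ne2 n4, sb0_ne2 n5.symm, sb0_ne2 n6, sb0_ne2 n1.symm⟩
    · obtain ⟨k1, k2, k3, k4, k5, k6, k7, k8⟩ := oth z z0 z1 z2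
      rw [au', bu', ao z z0 z1 z2, bo z z0 z1 z2]
      exact ⟨sb0_ne2 k3.symm, sb0_ne2 k7.symm, sb0_ne2 k2.symm, sb0_ne2 k6.symm⟩
    · rw [ax, bx, av', bv']
      exact ⟨(sb0_ne3 ep eq').symm, (sb0_ne4 eq eq').symm, (sb0_ne3 ep ep).symm,
        (sb0_ne4 eq ep).symm⟩
    · rw [au', bu', av', bv']
      exact ⟨sb0_ne2 n4.symm, sb0_ne2 n6.symm, sb0_ne2 n5, sb0_ne2 n1⟩
    · exact absurd rfl hwz
    · obtain ⟨k1, k2, k3, k4, k5, k6, k7, k8⟩ := oth z z0 z1 z2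
      rw [av', bv', ao z z0 z1 z2, bo z z0 z1 z2]
      exact ⟨sb0_ne2 k4.symm, sb0_ne2 k8.symm, sb0_ne2 k1.symm, sb0_ne2 k5.symm⟩
    · have k1 := hM.pa w w0
      have k2 := hM.pb w w0
      rw [ax, bx, ao w w0 w1 w2, bo w w0 w1 w2]
      exact ⟨(sb0_ne3 ep k1).symm, (sb0_ne4 eq k1).symm, (sb0_ne3 ep k2).symm,
        (sb0_ne4 eq k2).symm⟩
    · obtain ⟨k1, k2, k3, k4, k5, k6, k7, k8⟩ := oth w w0 w1 w2
      rw [au', bu', ao w w0 w1 w2, bo w w0 w1 w2]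
      exact ⟨sb0_ne2 k3, sb0_ne2 k2, sb0_ne2 k7, sb0_ne2 k6⟩
    · obtain ⟨k1, k2, k3, k4, k5, k6, k7, k8⟩ := oth w w0 w1 w2
      rw [av', bv', ao w w0 w1 w2, bo w w0 w1 w2]
      exact ⟨sb0_ne2 k4, sb0_ne2 k1, sb0_ne2 k8, sb0_ne2 k5⟩
    · obtain ⟨k1, k2, k3, k4⟩ := hM.ds w w0 z z0 hwz
      rw [ao z z0 z1 z2, bo z z0 z1 z2, ao w w0 w1 w2, bo w w0 w1 w2]
      exact ⟨sb0_ne2 k1, sb0_ne2 k2, sb0_ne2 k3, sb0_ne2 k4⟩
  -- crossing relation, symmetric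
  have symm : ∀ w ∈ insert x S, ∀ z ∈ insert x S, w ≠ z →
      (sb0_cr (sb0_a a x u v p q' p' w) (sb0_b b x u v p q w) (sb0_a a x u v p q' p' z)
        (sb0_b b x u v p q z) ↔
      sb0_cr (sb0_a a x u v p q' p' z) (sb0_b b x u v p q z) (sb0_a a x u v p q' p' w)
        (sb0_b b x u v p q w)) := by
    intro w hw z hz hwz
    obtain ⟨k1, k2, k3, k4⟩ := dist w hw z hz hwz
    exact sb0_sym k1 k2 k3 k4
  have xI : x ∈ insert x S := Set.mem_insert x S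
  have uI : u ∈ insert x S := Set.mem_insert_of_mem x hS.uS
  have vI : v ∈ insert x S := Set.mem_insert_of_mem x hS.vS
  -- u x
  have c_xu : G.Adj x u ↔ sb0_cr (sb0_a a x u v p q' p' x) (sb0_b b x u v p q x)
      (sb0_a a x u v p q' p' u) (sb0_b b x u v p q u) := by
    rw [ax, bx, au', bu']
    exact ⟨fun _ => sb0_k2 n1 n3 n5 ep ep' eq hap, fun _ => (hS.nx u hS.uS).2 (Or.inl rfl)⟩
  have c_xv : G.Adj x v ↔ sb0_cr (sb0_a a x u v p q' p' x) (sb0_b b x u v p q x)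
      (sb0_a a x u v p q' p' v) (sb0_b b x u v p q v) := by
    rw [ax, bx, av', bv']
    exact ⟨fun _ => sb0_k3 n1 n2 n6 ep eq' eq haq, fun _ => (hS.nx v hS.vS).2 (Or.inr rfl)⟩
  have c_uv : G.Adj u v ↔ sb0_cr (sb0_a a x u v p q' p' u) (sb0_b b x u v p q u)
      (sb0_a a x u v p q' p' v) (sb0_b b x u v p q v) := by
    rw [au', bu', av', bv']
    exact ⟨fun h => absurd h hS.nuv, fun h => absurd h (sb0_k1 n1 n2 n3 n4 n5 n6 hcr hap haq)⟩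
  have c_xy : ∀ y ∈ S, y ≠ u → y ≠ v → (G.Adj x y ↔ sb0_cr (sb0_a a x u v p q' p' x)
      (sb0_b b x u v p q x) (sb0_a a x u v p q' p' y) (sb0_b b x u v p q y)) := by
    intro y y0 y1 y2
    rw [ax, bx, ao y y0 y1 y2, bo y y0 y1 y2]
    obtain ⟨k1, k2, k3, k4, k5, k6, k7, k8⟩ := oth y y0 y1 y2
    constructor
    · intro h
      rcases (hS.nx y y0).1 h with h | h
      · exact absurd h y1
      · exact absurd h y2
    · intro h
      exact absurd h (sb0_k4 n1 ep eq k1 k2 k5 k6 (hM.pa y y0) (hM.pb y y0)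
        (hy y y0 y1 y2))
  have c_yu : ∀ y ∈ S, y ≠ u → y ≠ v → (G.Adj y u ↔ sb0_cr (sb0_a a x u v p q' p' y)
      (sb0_b b x u v p q y) (sb0_a a x u v p q' p' u) (sb0_b b x u v p q u)) := by
    intro y y0 y1 y2
    rw [au', bu', ao y y0 y1 y2, bo y y0 y1 y2]
    obtain ⟨k1, k2, k3, k4, k5, k6, k7, k8⟩ := oth y y0 y1 y2
    rw [sb0_k5 n1 k1 k2 k5 k6 k3 k7 (hy y y0 y1 y2),
      hS.same y y0 u hS.uS (fun h => y1 h.1) (fun h => y2 h.1), hM.ad y y0 u hS.uS y1]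
    rcases hu with ⟨rfl, rfl⟩ | ⟨rfl, rfl⟩
    · exact Iff.rfl
    · exact sb0_sw2
  have c_yv : ∀ y ∈ S, y ≠ u → y ≠ v → (G.Adj y v ↔ sb0_cr (sb0_a a x u v p q' p' y)
      (sb0_b b x u v p q y) (sb0_a a x u v p q' p' v) (sb0_b b x u v p q v)) := by
    intro y y0 y1 y2
    rw [av', bv', ao y y0 y1 y2, bo y y0 y1 y2]
    obtain ⟨k1, k2, k3, k4, k5, k6, k7, k8⟩ := oth y y0 y1 y2
    rw [sb0_k6 n1 k1 k2 k5 k6 k4 k8 (hy y y0 y1 y2),
      hS.same y y0 v hS.vS (fun h => y1 h.1) (fun h => y2 h.1), hM.ad y y0 v hS.vS y2]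
    rcases hv with ⟨rfl, rfl⟩ | ⟨rfl, rfl⟩
    · exact Iff.rfl
    · exact sb0_sw2
  have c_yz : ∀ y ∈ S, y ≠ u → y ≠ v → ∀ z ∈ S, z ≠ u → z ≠ v → y ≠ z →
      (G.Adj y z ↔ sb0_cr (sb0_a a x u v p q' p' y)
      (sb0_b b x u v p q y) (sb0_a a x u v p q' p' z) (sb0_b b x u v p q z)) := by
    intro y y0 y1 y2 z z0 z1 z2 hyz
    obtain ⟨k1, k2, k3, k4⟩ := hM.ds y y0 z z0 hyz
    rw [ao z z0 z1 z2, bo z z0 z1 z2, ao y y0 y1 y2, bo y y0 y1 y2, sb0_k7 k1 k2 k3 k4,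
      hS.same y y0 z z0 (fun h => y1 h.1) (fun h => y2 h.1), hM.ad y y0 z z0 hyz]
    exact Iff.rfl
  refine ⟨sb0_a a x u v p q' p', sb0_b b x u v p q, ?_, ?_, ?_, dist, ?_⟩
  · intro w hw
    rcases four w hw with rfl | rfl | rfl | ⟨w0, w1, w2⟩
    · rw [ax]; exact sb0_ev1 _
    · rw [au']; exact sb0_ev _
    · rw [av']; exact sb0_ev _
    · rw [ao w w0 w1 w2]; exact sb0_ev _
  · intro w hw
    rcases four w hw with rfl | rfl | rfl | ⟨w0, w1, w2⟩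
    · rw [bx]; exact sb0_ev2 _
    · rw [bu']; exact sb0_ev _
    · rw [bv']; exact sb0_ev _
    · rw [bo w w0 w1 w2]; exact sb0_ev _
  · intro w hw
    rcases four w hw with rfl | rfl | rfl | ⟨w0, w1, w2⟩
    · rw [ax, bx]; exact nxx
    · rw [au', bu']; exact sb0_ne2 n3
    · rw [av', bv']; exact sb0_ne2 n2.symm
    · rw [ao w w0 w1 w2, bo w w0 w1 w2]; exact sb0_ne2 (hM.ne w w0)
  · intro w hw z hz hwz
    show G.Adj w z ↔ sb0_cr _ _ _ _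
    rcases four w hw with h | h | h | ⟨w0, w1, w2⟩ <;>
      rcases four z hz with h' | h' | h' | ⟨z0, z1, z2⟩
    · exact absurd (h.trans h'.symm) hwz
    · subst h; subst h'; exact c_xu
    · subst h; subst h'; exact c_xv
    · subst h; exact c_xy z z0 z1 z2
    · rw [symm w hw z hz hwz, G.adj_comm]; subst h; subst h'; exact c_xu
    · exact absurd (h.trans h'.symm) hwz
    · subst h; subst h'; exact c_uv
    · rw [symm w hw z hz hwz, G.adj_comm]; subst h; exact c_yu z z0 z1 z2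
    · rw [symm w hw z hz hwz, G.adj_comm]; subst h; subst h'; exact c_xv
    · rw [symm w hw z hz hwz, G.adj_comm]; subst h; subst h'; exact c_uv
    · exact absurd (h.trans h'.symm) hwz
    · rw [symm w hw z hz hwz, G.adj_comm]; subst h; exact c_yv z z0 z1 z2
    · rw [symm w hw z hz hwz, G.adj_comm]; subst h'; exact c_xy w w0 w1 w2
    · subst h'; exact c_yu w w0 w1 w2
    · subst h'; exact c_yv w w0 w1 w2
    · exact c_yz w w0 w1 w2 z z0 z1 z2 hwz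

end Pool.Agent.Helper24.FF
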