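import Pool.Agent.Helper46.FF.SB0

set_option autoImplicit false

namespace Pool.Agent.Helper24.FF

open Pool.Agent.Helper64.CT Pool.Agent.Helper64.DT Pool.Agent.Helper64.FL
open Pool.Agent.Helper64.HG (Ovl Model Circ IC HellyCircle ChordModel)

theorem tw_memb {j : ℕ} : ∀ {w : List ℕ}, lp.memb j w = true ↔ j ∈ w := by
  intro w
  induction w with
  | nil => simp [lp.memb]
  | cons x l ih =>
    rw [lp.memb, Bool.or_eq_true, ih, List.mem_cons, Nat.beq_eq]
    exact or_congr eq_comm Iff.rfl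

theorem tw_fp {j : ℕ} : ∀ {w : List ℕ}, fp j w < w.length → w[fp j w]? = some j := by
  intro w
  induction w with
  | nil => intro h; simp [fp] at h
  | cons x l ih =>
    intro h
    rw [fp] at h ⊢
    by_cases hx : Nat.beq x j = true
    · rw [hx]
      rw [Nat.beq_eq] at hx
      simp [hx]
    · have hx' : Nat.beq x j = false := Bool.eq_false_iff.2 hx
      rw [hx'] at h ⊢
      simp only [cond_false, List.length_cons, Nat.succ_eq_add_one, Nat.add_lt_add_iff_right] at h ⊢
      rw [List.getElem?_cons_succ]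
      exact ih h

theorem tw_lp {j : ℕ} : ∀ {w : List ℕ}, j ∈ w → w[lp j w]? = some j := by
  intro w
  induction w with
  | nil => intro h; cases h
  | cons x l ih =>
    intro h
    rw [lp]
    by_cases hx : lp.memb j l = true
    · rw [hx]
      simp only [cond_true, Nat.succ_eq_add_one]
      rw [List.getElem?_cons_succ]
      exact ih (tw_memb.1 hx)
    · have hx' : lp.memb j l = false := Bool.eq_false_iff.2 hx
      rw [hx']
      rcases List.mem_cons.1 h with h | h
      · simp [h]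
      · exact absurd (tw_memb.2 h) hx

theorem tw_oko {T : Ent} {i : ℕ} {w : List ℕ} : ∀ {m : ℕ}, oko T i w m = true → ∀ j, j < m →
    j ≠ i → fp j w < lp j w ∧ lp j w < w.length ∧ okc T i w j j = true := by
  intro m
  induction m with
  | zero => intro _ j hj; omega
  | succ m ih =>
    intro h j hj hji
    rw [oko, Bool.and_eq_true, Bool.or_eq_true, Bool.and_eq_true, Bool.and_eq_true, Nat.beq_eq,
      Nat.blt_eq, Nat.blt_eq] at h
    by_cases hjm : j = m
    · subst hjm
      rcases h.1 with h1 | h1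
      · exact absurd h1 hji
      · exact ⟨h1.1.1, h1.1.2, h1.2⟩
    · exact ih h.2 j (by omega) hji

theorem tw_okc {T : Ent} {i j : ℕ} {w : List ℕ} : ∀ {m : ℕ}, okc T i w j m = true → ∀ k, k < m →
    k ≠ i → crs (fp j w) (lp j w) (fp k w) (lp k w) = adT T j k := by
  intro m
  induction m with
  | zero => intro _ j hj; omega
  | succ m ih =>
    intro h k hk hki
    rw [okc, Bool.and_eq_true, Bool.or_eq_true, Nat.beq_eq, beq_iff_eq] at h
    by_cases hkm : k = m
    · subst hkm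
      rcases h.1 with h1 | h1
      · exact absurd h1 hki
      · exact h1
    · exact ih h.2 k (by omega) hki

theorem tw_bl (x y : ℕ) : Nat.blt x y = sb0_l (x : ℤ) (y : ℤ) := by
  by_cases h : x < y
  · rw [sb0_t (by omega)]
    rw [Nat.blt_eq]
    exact h
  · rw [sb0_f (by omega)]
    exact Bool.eq_false_iff.2 (fun h1 => h (by rw [Nat.blt_eq] at h1; exact h1))

theorem tw_imp {x y z w : ℤ} (h : x < y → z < w) : sb0_l x y = true → sb0_l z w = true := by
  intro h1
  exact decide_eq_true (h (of_decide_eq_true h1))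

theorem tw_crs {f l f' l' : ℕ} (h : f < l) (h' : f' < l') (h1 : f ≠ f') (h2 : f ≠ l')
    (h3 : l ≠ f') (h4 : l ≠ l') :
    crs f l f' l' = true ↔ sb0_cr (2 * (f : ℤ)) (2 * (l : ℤ)) (2 * (f' : ℤ)) (2 * (l' : ℤ)) := by
  rw [sb0_iff (by omega) (by omega) (by omega) (by omega), sb0_dbl, sb0_dbl, sb0_dbl, sb0_dbl]
  unfold crs
  rw [tw_bl, tw_bl, tw_bl, tw_bl, tw_bl, tw_bl]
  have g1 : (f : ℤ) ≠ f' := by omega
  have g3 : (l : ℤ) ≠ f' := by omega
  have g4 : (l : ℤ) ≠ l' := by omega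
  have c1 : sb0_l (l : ℤ) f' = true → sb0_l (f : ℤ) f' = true := tw_imp (by omega)
  have c2 : sb0_l (f : ℤ) f' = true → sb0_l (f : ℤ) l' = true := tw_imp (by omega)
  have c3 : sb0_l (l : ℤ) l' = true → sb0_l (f : ℤ) l' = true := tw_imp (by omega)
  have c4 : sb0_l (l : ℤ) f' = true → sb0_l (l : ℤ) l' = true := tw_imp (by omega)
  rw [sb0_ln g1, sb0_ln g3, sb0_ln g4]
  revert c1 c2 c3 c4
  generalize sb0_l (f : ℤ) f' = x1
  generalize sb0_l (l : ℤ) f' = x2
  generalize sb0_l (f : ℤ) l' = x3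
  generalize sb0_l (l : ℤ) l' = x4
  revert x1 x2 x3 x4
  decide

theorem tw_memp {i j : ℕ} : ∀ l : List (ℕ × ℕ), memp j i l = memp i j l := by
  intro l
  induction l with
  | nil => rfl
  | cons p l ih =>
    obtain ⟨a, b⟩ := p
    simp only [memp, ih]
    rw [Bool.or_comm (Nat.beq a j && Nat.beq b i)]

theorem tw_adT (T : Ent) (i j : ℕ) : adT T i j = adT T j i := by
  unfold adT
  rw [tw_memp T.rg, tw_memp T.el]

open Classical in
/-- the index -/
noncomputable def tw_ix {V : Type} (f : ℕ → V) (n : ℕ) (x : V) : ℕ :=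
  if h : ∃ j, j < n ∧ x = f j then h.choose else 0

theorem tw_ixe {V : Type} {f : ℕ → V} {n : ℕ} (hf : ∀ j k, j < k → k < n → f j ≠ f k) {j : ℕ}
    (hj : j < n) : tw_ix f n (f j) = j := by
  have h : ∃ k, k < n ∧ f j = f k := ⟨j, hj, rfl⟩
  unfold tw_ix
  rw [dif_pos h]
  obtain ⟨h1, h2⟩ := h.choose_spec
  rcases lt_trichotomy j h.choose with h3 | h3 | h3
  · exact absurd h2 (hf _ _ h3 h1)
  · exact h3.symm
  · exact absurd h2.symm (hf _ _ h3 hj)

theorem st_TW : ST_TW := by
  intro V T f i w hf hw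
  have ho := tw_oko (T := T) (i := i) (w := w) (m := T.n) hw
  have pos : ∀ j, j < T.n → j ≠ i → w[fp j w]? = some j ∧ w[lp j w]? = some j := by
    intro j hj hji
    obtain ⟨h1, h2, h3⟩ := ho j hj hji
    have h4 := tw_fp (j := j) (w := w) (by omega)
    exact ⟨h4, tw_lp (List.mem_of_getElem? h4)⟩
  have dis : ∀ j, j < T.n → j ≠ i → ∀ k, k < T.n → k ≠ i → j ≠ k →
      fp j w ≠ fp k w ∧ fp j w ≠ lp k w ∧ lp j w ≠ fp k w ∧ lp j w ≠ lp k w := by
    intro j hj hji k hk hki hjk
    obtain ⟨h1, h2⟩ := pos j hj hji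
    obtain ⟨h3, h4⟩ := pos k hk hki
    refine ⟨fun h => ?_, fun h => ?_, fun h => ?_, fun h => ?_⟩
    · rw [h, h3] at h1; exact hjk (Option.some.inj h1).symm
    · rw [h, h4] at h1; exact hjk (Option.some.inj h1).symm
    · rw [h, h3] at h2; exact hjk (Option.some.inj h2).symm
    · rw [h, h4] at h2; exact hjk (Option.some.inj h2).symm
  have crr : ∀ j, j < T.n → j ≠ i → ∀ k, k < T.n → k ≠ i → j ≠ k →
      (adT T j k = true ↔ sb0_cr (2 * (fp j w : ℤ)) (2 * (lp j w : ℤ)) (2 * (fp k w : ℤ))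
        (2 * (lp k w : ℤ))) := by
    intro j hj hji k hk hki hjk
    obtain ⟨a1, a2, a3⟩ := ho j hj hji
    obtain ⟨b1, b2, b3⟩ := ho k hk hki
    obtain ⟨d1, d2, d3, d4⟩ := dis j hj hji k hk hki hjk
    rcases lt_or_gt_of_ne hjk with h | h
    · rw [tw_adT, ← tw_okc b3 j h hji, tw_crs b1 a1 d1.symm d3.symm d2.symm d4.symm]
      exact sb0_sym (by omega) (by omega) (by omega) (by omega)
    · rw [← tw_okc a3 k h hki, tw_crs a1 b1 d1 d2 d3 d4]
  refine ⟨fun x => 2 * (fp (tw_ix f T.n x) w : ℤ), fun x => 2 * (lp (tw_ix f T.n x) w : ℤ),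
    ?_, ?_, ?_, ?_, ?_⟩
  · intro v _
    exact sb0_ev _
  · intro v _
    exact sb0_ev _
  · rintro v ⟨j, hj, hji, rfl⟩
    simp only [tw_ixe hf hj]
    obtain ⟨h1, h2, h3⟩ := ho j hj hji
    omega
  · rintro u ⟨j, hj, hji, rfl⟩ v ⟨k, hk, hki, rfl⟩ huv
    simp only [tw_ixe hf hj, tw_ixe hf hk]
    obtain ⟨d1, d2, d3, d4⟩ := dis j hj hji k hk hki (fun h => huv (by rw [h]))
    omega
  · rintro u ⟨j, hj, hji, rfl⟩ v ⟨k, hk, hki, rfl⟩ huv
    have hjk : j ≠ k := fun h => huv (by rw [h])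
    simp only [tw_ixe hf hj, tw_ixe hf hk]
    refine Iff.trans ?_ (crr j hj hji k hk hki hjk)
    constructor
    · rintro ⟨h0, i', j', hi', hj', e1, e2, h3⟩
      have t1 : j = i' := by
        have := congrArg (tw_ix f T.n) e1
        rwa [tw_ixe hf hj, tw_ixe hf hi'] at this
      have t2 : k = j' := by
        have := congrArg (tw_ix f T.n) e2
        rwa [tw_ixe hf hk, tw_ixe hf hj'] at this
      rw [t1, t2]
      unfold adT
      rw [Bool.or_eq_true]
      exact h3
    · intro h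
      unfold adT at h
      rw [Bool.or_eq_true] at h
      exact ⟨huv, j, k, hj, hk, rfl, rfl, h⟩

end Pool.Agent.Helper24.FF
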