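import Pool.Agent.Helper46.FF.SB0
import Pool.Agent.Helper63.FL.IPL

set_option autoImplicit false

namespace Pool.Agent.Helper24.FF

open Pool.Agent.Helper64.CT Pool.Agent.Helper64.DT Pool.Agent.Helper64.FL
open Pool.Agent.Helper64.HG (Ovl Model Circ IC HellyCircle ChordModel)

/-- right ends -/
def wcy_b (n i : ℕ) : ℤ := if i + 1 = n then 4 else 4 * i + 8

theorem wcy_b1 {n i : ℕ} (h : i + 1 = n) : wcy_b n i = 4 := if_pos h

theorem wcy_b2 {n i : ℕ} (h : i + 1 ≠ n) : wcy_b n i = 4 * i + 8 := if_neg h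

theorem wcy_par (n i : ℕ) : wcy_b n i % 4 = 0 := by
  by_cases h : i + 1 = n
  · rw [wcy_b1 h]; rfl
  · rw [wcy_b2 h]; omega

theorem wcy_inj {n i j : ℕ} (hij : i < j) : wcy_b n i ≠ wcy_b n j := by
  by_cases h : i + 1 = n
  · rw [wcy_b1 h]
    by_cases h' : j + 1 = n
    · omega
    · rw [wcy_b2 h']; omega
  · rw [wcy_b2 h]
    by_cases h' : j + 1 = n
    · rw [wcy_b1 h']; omega
    · rw [wcy_b2 h']; omega

theorem wcy_cr {n i j : ℕ} (hn : 4 ≤ n) (hij : i < j) (hj : j < n) :
    sb0_cr (4 * (i : ℤ) + 2) (wcy_b n i) (4 * (j : ℤ) + 2) (wcy_b n j) ↔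
      (j = i + 1 ∨ (i = 0 ∧ j + 1 = n)) := by
  have h : i + 1 ≠ n := by omega
  rw [wcy_b2 h]
  by_cases h' : j + 1 = n
  · rw [wcy_b1 h']
    unfold sb0_cr bt
    by_cases h0 : i = 0
    · subst h0
      by_cases h1 : j = 0 + 1
      · omega
      · have : (2 : ℤ) < 4 := by norm_num
        constructor
        · intro _; right; exact ⟨rfl, h'⟩
        · intro _
          have e1 : ¬ ((4 * ((0 : ℕ) : ℤ) + 2 < 4 * (j : ℤ) + 2 ∧ 4 * (j : ℤ) + 2 < 4 * ((0 : ℕ) : ℤ) + 8) ∨
              (4 * ((0 : ℕ) : ℤ) + 8 < 4 * (j : ℤ) + 2 ∧ 4 * (j : ℤ) + 2 < 4 * ((0 : ℕ) : ℤ) + 2)) := by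
            omega
          have e2 : (4 * ((0 : ℕ) : ℤ) + 2 < 4 ∧ (4 : ℤ) < 4 * ((0 : ℕ) : ℤ) + 8) ∨
              (4 * ((0 : ℕ) : ℤ) + 8 < 4 ∧ (4 : ℤ) < 4 * ((0 : ℕ) : ℤ) + 2) := by
            omega
          exact fun hh => e1 (hh.2 e2)
    · have e2 : ¬ ((4 * (i : ℤ) + 2 < 4 ∧ (4 : ℤ) < 4 * (i : ℤ) + 8) ∨
          (4 * (i : ℤ) + 8 < 4 ∧ (4 : ℤ) < 4 * (i : ℤ) + 2)) := by
        omega
      constructor
      · intro hh
        left
        by_contra hc
        apply hh
        constructor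
        · intro h2; exfalso; omega
        · intro h2; exact absurd h2 e2
      · rintro (h2 | h2)
        · intro hh
          apply e2
          apply hh.1
          omega
        · exact absurd h2.1 h0
  · rw [wcy_b2 h']
    unfold sb0_cr bt
    have e2 : ¬ ((4 * (i : ℤ) + 2 < 4 * (j : ℤ) + 8 ∧ 4 * (j : ℤ) + 8 < 4 * (i : ℤ) + 8) ∨
          (4 * (i : ℤ) + 8 < 4 * (j : ℤ) + 8 ∧ 4 * (j : ℤ) + 8 < 4 * (i : ℤ) + 2)) := by
      omega
    constructor
    · intro hh
      left
      by_contra hc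
      apply hh
      constructor
      · intro h2; exfalso; omega
      · intro h2; exact absurd h2 e2
    · rintro (h2 | h2)
      · intro hh
        apply e2
        apply hh.1
        omega
      · exact absurd h2.2 h'

theorem wcy_adj {V : Type} {G : SimpleGraph V} {r : V} {M : List V} (hR : Rim G r M) (i j : ℕ)
    (hi : i < (r :: M).length) (hj : j < (r :: M).length) (hij : i < j) :
    G.Adj ((r :: M)[i]) ((r :: M)[j]) ↔ (j = i + 1 ∨ (i = 0 ∧ j + 1 = (r :: M).length)) := by
  have hnd := Pool.Agent.Helper63.FL.ipt_nodup G M hR.ip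
  cases j with
  | zero => omega
  | succ j =>
    have hj' : j < M.length := by simpa using hj
    have hM0 : 0 < M.length := by omega
    rw [List.getElem_cons_succ]
    cases i with
    | zero =>
      rw [List.getElem_cons_zero, hR.adj _ (List.getElem_mem hj')]
      have e1 : M.head? = some M[0] := by
        rw [List.head?_eq_getElem?, List.getElem?_eq_getElem hM0]
      have e2 : M.getLast? = some (M[M.length - 1]'(by omega)) := by
        rw [List.getLast?_eq_getElem?, List.getElem?_eq_getElem (by omega)]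
      rw [e1, e2, Option.some_inj, Option.some_inj, hnd.getElem_inj_iff, hnd.getElem_inj_iff]
      have e3 : (r :: M).length = M.length + 1 := rfl
      rw [e3]
      clear e1 e2 e3
      constructor
      · rintro (h | h)
        · left; omega
        · right; exact ⟨rfl, by omega⟩
      · rintro (h | h)
        · left; omega
        · right; omega
    | succ i =>
      have hi' : i < M.length := by simpa using hi
      rw [List.getElem_cons_succ,
        Pool.Agent.Helper63.FL.ipt_adj G M hR.ip i j hi' hj' (by omega)]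
      omega

theorem st_WCY : ST_WCY := by
  classical
  intro V G r M hR
  have hnd : (r :: M).Nodup :=
    List.nodup_cons.2 ⟨hR.rM, Pool.Agent.Helper63.FL.ipt_nodup G M hR.ip⟩
  have hn : 4 ≤ (r :: M).length := by
    have := hR.len
    simp only [List.length_cons]
    omega
  have hix : ∀ i (hi : i < (r :: M).length), (r :: M).idxOf ((r :: M)[i]) = i := by
    intro i hi
    exact hnd.idxOf_getElem i hi
  have hmem : ∀ x ∈ LS (r :: M), ∃ i, ∃ (hi : i < (r :: M).length), (r :: M)[i] = x := by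
    intro x hx
    obtain ⟨i, hi, h⟩ := List.getElem_of_mem (show x ∈ r :: M from hx)
    exact ⟨i, hi, h⟩
  refine ⟨fun x => 4 * (((r :: M).idxOf x : ℕ) : ℤ) + 2,
    fun x => wcy_b (r :: M).length ((r :: M).idxOf x), ⟨?_, ?_, ?_, ?_, ?_⟩, ?_⟩
  · intro v _
    show (4 * (((r :: M).idxOf v : ℕ) : ℤ) + 2) % 2 = 0
    omega
  · intro v _
    show wcy_b (r :: M).length ((r :: M).idxOf v) % 2 = 0
    have := wcy_par (r :: M).length ((r :: M).idxOf v)
    omega
  · intro v _
    show 4 * (((r :: M).idxOf v : ℕ) : ℤ) + 2 ≠ wcy_b (r :: M).length ((r :: M).idxOf v)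
    have := wcy_par (r :: M).length ((r :: M).idxOf v)
    omega
  · intro u hu v hv huv
    obtain ⟨i, hi, rfl⟩ := hmem u hu
    obtain ⟨j, hj, rfl⟩ := hmem v hv
    have hij : i ≠ j := by
      rintro rfl
      exact huv rfl
    simp only [hix i hi, hix j hj]
    have p1 := wcy_par (r :: M).length i
    have p2 := wcy_par (r :: M).length j
    have p3 : wcy_b (r :: M).length i ≠ wcy_b (r :: M).length j := by
      rcases lt_or_gt_of_ne hij with h | h
      · exact wcy_inj h
      · exact (wcy_inj h).symm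
    refine ⟨by omega, by omega, by omega, p3⟩
  · intro u hu v hv huv
    obtain ⟨i, hi, rfl⟩ := hmem u hu
    obtain ⟨j, hj, rfl⟩ := hmem v hv
    have hij : i ≠ j := by
      rintro rfl
      exact huv rfl
    simp only [hix i hi, hix j hj]
    show _ ↔ sb0_cr _ _ _ _
    rcases lt_or_gt_of_ne hij with h | h
    · rw [wcy_adj hR i j hi hj h, wcy_cr hn h hj]
    · have p1 := wcy_par (r :: M).length i
      have p2 := wcy_par (r :: M).length j
      rw [G.adj_comm, wcy_adj hR j i hj hi h,
        sb0_sym (by omega) (by omega) (by omega) (wcy_inj h).symm, wcy_cr hn h hi]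
  · intro i hi
    simp only [hix i hi]
    exact ⟨trivial, fun h => wcy_b2 (by omega), fun h => wcy_b1 h⟩

end Pool.Agent.Helper24.FF
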